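import Mathlib

/-!
# Shadowing for the inverse of a closed relation containing the diagonal

If `G` is a closed relation on a compact Hausdorff space which contains the diagonal and has the
`(2,2)`-shadowing property, then `G⁻¹` has the `(2,2)`-shadowing property.
-/

open Set Filter Topology Uniformity

namespace Pool.Agent.Results.MP_c44e76_an.InverseShadowing

variable {X : Type*}

/-- The inverse relation `G⁻¹ = {(x,y) : (y,x) ∈ G}`. -/
def inv (G : Set (X × X)) : Set (X × X) := {p | (p.2, p.1) ∈ G}

/-- `z` is a trajectory of `G`: `(z_n, z_{n+1}) ∈ G` for all `n`. -/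
def IsTrajectory (G : Set (X × X)) (z : ℕ → X) : Prop := ∀ n, (z n, z (n + 1)) ∈ G

/-- `D(G)`, the set of points `x` with `G(x) ≠ ∅`. -/
def Dom (G : Set (X × X)) : Set X := {x | ∃ y, (x, y) ∈ G}

/-- `(V,2)`-pseudo-orbits of `G`: sequences in `D(G)` such that for every `n`
`(x_{n+1}, y) ∈ V` for some `y ∈ G(x_n)`. -/
def IsPseudoOrbit2 (G V : Set (X × X)) (x : ℕ → X) : Prop :=
  (∀ n, x n ∈ Dom G) ∧ ∀ n, ∃ y, (x n, y) ∈ G ∧ (x (n + 1), y) ∈ V

/-- The legal point `y` `(U,2)`-shadows `x`: some trajectory `z` of `y` satisfies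
`(x_n, z_n) ∈ U` for every `n` (in particular `y` is legal). -/
def Shadows2 (G U : Set (X × X)) (y : X) (x : ℕ → X) : Prop :=
  ∃ z : ℕ → X, z 0 = y ∧ IsTrajectory G z ∧ ∀ n, (x n, z n) ∈ U

/-- The `(2,2)`-shadowing property. -/
def Shadowing22 [UniformSpace X] (G : Set (X × X)) : Prop :=
  ∀ U ∈ 𝓤 X, ∃ V ∈ 𝓤 X, ∀ x : ℕ → X, IsPseudoOrbit2 G V x → ∃ y, Shadows2 G U y x

/-- **Main result.** Let `X` be a nonempty compact Hausdorff space and `G ⊆ X × X` a closed relation
containing the diagonal. If `(X, G)` has the `(2,2)`-shadowing property, then so does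
`(X, G⁻¹)`. -/
theorem result {X : Type*} [UniformSpace X] [CompactSpace X] [T2Space X] [Nonempty X]
    (G : Set (X × X)) (hG : IsClosed G) (hdiag : ∀ x : X, (x, x) ∈ G)
    (hsh : Shadowing22 G) : Shadowing22 (inv G) := by
  intro U hU
  obtain ⟨W, ⟨hW, hWcl⟩, hWU⟩ := (uniformity_hasBasis_closed (α := X)).mem_iff.mp hU
  obtain ⟨W1, hW1, hW1W⟩ := comp_mem_uniformity_sets hW
  obtain ⟨V0, hV0, hV0s⟩ := hsh W1 hW1
  obtain ⟨V, hV, hVsymm, hVsub⟩ := symm_of_uniformity (inter_mem hV0 hW1)
  refine ⟨V, hV, fun x hx => ?_⟩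
  choose y hyG hyV using hx.2
  -- finite segments
  have key : ∀ N : ℕ, ∃ z : ℕ → X, IsTrajectory (inv G) z ∧ ∀ n ≤ N, (x n, z n) ∈ W := by
    intro N
    let v : ℕ → X := fun k => if k < N then y (N - 1 - k) else x 0
    have hv : IsPseudoOrbit2 G V0 v := by
      refine ⟨fun n => ⟨v n, hdiag _⟩, fun k => ?_⟩
      by_cases hk : k < N
      · have e1 : v k = y (N - 1 - k) := by simp only [v, if_pos hk]
        refine ⟨x (N - 1 - k), ?_, ?_⟩
        · rw [e1]; exact hyG (N - 1 - k)
        · by_cases hk2 : k + 1 < N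
          · have e2 : v (k + 1) = y (N - 1 - (k + 1)) := by simp only [v, if_pos hk2]
            rw [e2]
            have e3 : N - 1 - k = (N - 1 - (k + 1)) + 1 := by omega
            have h := hyV (N - 1 - (k + 1))
            rw [← e3] at h
            exact (hVsub (hVsymm.symm _ _ h)).1
          · have e2 : v (k + 1) = x 0 := by simp only [v, if_neg hk2]
            have e3 : N - 1 - k = 0 := by omega
            rw [e2, e3]
            exact refl_mem_uniformity hV0
      · have e1 : v k = x 0 := by simp only [v, if_neg hk]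
        have e2 : v (k + 1) = x 0 := by
          have : ¬ (k + 1 < N) := by omega
          simp only [v, if_neg this]
        refine ⟨x 0, ?_, ?_⟩
        · rw [e1]; exact hdiag _
        · rw [e2]; exact refl_mem_uniformity hV0
    obtain ⟨_, t, _, htraj, ht⟩ := hV0s v hv
    refine ⟨fun n => t (N - n), ?_, ?_⟩
    · intro n
      change (t (N - (n + 1)), t (N - n)) ∈ G
      by_cases hn : n < N
      · have : N - n = (N - (n + 1)) + 1 := by omega
        rw [this]
        exact htraj _
      · have h1 : N - n = 0 := by omega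
        have h2 : N - (n + 1) = 0 := by omega
        rw [h1, h2]
        exact hdiag _
    · intro n hn
      change (x n, t (N - n)) ∈ W
      apply hW1W
      refine ⟨v (N - n), ?_, ht _⟩
      by_cases hn0 : n = 0
      · subst hn0
        have e : v (N - 0) = x 0 := by
          have : ¬ (N - 0 < N) := by omega
          simp only [v, if_neg this]
        rw [e]
        exact refl_mem_uniformity hW1
      · have hlt : N - n < N := by omega
        have e : v (N - n) = y (N - 1 - (N - n)) := by simp only [v, if_pos hlt]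
        rw [e]
        have e3 : n = (N - 1 - (N - n)) + 1 := by omega
        have h := hyV (N - 1 - (N - n))
        rw [← e3] at h
        exact (hVsub h).2
  -- compactness
  let C : ℕ → Set (ℕ → X) := fun N =>
    {z | IsTrajectory (inv G) z ∧ ∀ n ≤ N, (x n, z n) ∈ W}
  have hCne : ∀ N, (C N).Nonempty := fun N => key N
  have hinvcl : IsClosed (inv G) := hG.preimage continuous_swap
  have hCcl : ∀ N, IsClosed (C N) := by
    intro N
    have h1 : IsClosed {z : ℕ → X | IsTrajectory (inv G) z} := by
      have : {z : ℕ → X | IsTrajectory (inv G) z} =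
          ⋂ n, (fun z : ℕ → X => (z n, z (n + 1))) ⁻¹' (inv G) := by
        ext z; simp [IsTrajectory]
      rw [this]
      exact isClosed_iInter fun n =>
        hinvcl.preimage ((continuous_apply n).prodMk (continuous_apply (n + 1)))
    have h2 : IsClosed {z : ℕ → X | ∀ n ≤ N, (x n, z n) ∈ W} := by
      have : {z : ℕ → X | ∀ n ≤ N, (x n, z n) ∈ W} =
          ⋂ n, ⋂ (_ : n ≤ N), (fun z : ℕ → X => (x n, z n)) ⁻¹' W := by
        ext z; simp
      rw [this]
      exact isClosed_iInter fun n => isClosed_iInter fun _ =>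
        hWcl.preimage (continuous_const.prodMk (continuous_apply n))
    exact h1.inter h2
  have hCdec : ∀ N, C (N + 1) ⊆ C N := fun N z hz => ⟨hz.1, fun n hn => hz.2 n (by omega)⟩
  obtain ⟨z, hz⟩ := IsCompact.nonempty_iInter_of_sequence_nonempty_isCompact_isClosed C hCdec
    hCne (hCcl 0).isCompact hCcl
  rw [mem_iInter] at hz
  exact ⟨z 0, z, rfl, (hz 0).1, fun n => hWU ((hz n).2 n le_rfl)⟩

end Pool.Agent.Results.MP_c44e76_an.InverseShadowing
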